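import Pool.Agent.Y782.SA.Stm

/-! The discretised forms converge to the form of the continuous path. -/

set_option autoImplicit false
set_option linter.unusedSectionVars false

open MeasureTheory ProbabilityTheory Set Filter Topology
open scoped NNReal ENNReal

namespace Pool.Agent.Y51.SA

open Pool.Agent.Y782.SA

section

variable {E : Type} [NormedAddCommGroup E] [InnerProductSpace ℝ E] [FiniteDimensional ℝ E]
  {ι : Type} [Fintype ι] {A : ι → E →L[ℝ] E} {b : ι → ℝ≥0 → ℝ}

lemma path_cont (hb : ∀ α, Continuous (b α)) : Continuous (path A b) := by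
  unfold path
  refine continuous_finsetSum _ fun α _ => ?_
  exact ((hb α).comp continuous_real_toNNReal).smul continuous_const

lemma path_good (hA : ∀ α, Sym (A α)) (hb : ∀ α, Continuous (b α)) (h0 : ∀ α, b α 0 = 0) :
    GoodW (path A b) where
  meas := (path_cont hb).stronglyMeasurable
  bdd L := by
    obtain ⟨B, hB⟩ := (isCompact_Icc (a := (0 : ℝ)) (b := L)).exists_bound_of_continuousOn
      (path_cont (A := A) hb).continuousOn
    exact ⟨B, hB⟩
  sym x := by
    intro u v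
    simp only [path, FunLike.coe_sum, FunLike.coe_smul, Finset.sum_apply, Pi.smul_apply, sum_inner,
      inner_sum, real_inner_smul_left, real_inner_smul_right]
    refine Finset.sum_congr rfl fun α _ => ?_
    rw [hA α u v]
  zero := by
    simp [path, h0]

lemma telescope (u : ℕ → ℝ) {n N : ℕ} (h : N ≤ n) :
    ∑ k : Fin n, (if (k : ℕ) + 1 ≤ N then u (k + 1) - u k else 0) = u N - u 0 := by
  rw [Fin.sum_univ_eq_sum_range (fun k => if k + 1 ≤ N then u (k + 1) - u k else 0) n,
    ← Finset.sum_range_sub u N, ← Finset.sum_filter]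
  apply Finset.sum_congr _ fun _ _ => rfl
  ext k
  simp only [Finset.mem_filter, Finset.mem_range]
  omega

lemma step_eq (h0 : ∀ α, b α 0 = 0) (D n : ℕ) (x : ℝ) (hD : 1 ≤ D) (hx : 0 ≤ x)
    (hxn : x * D < n + 1) :
    stepW A D n (incr b D n) x = path A b (⌊x * D⌋₊ / D) := by
  have hD0 : (0 : ℝ) < D := by exact_mod_cast hD
  have hN : ⌊x * D⌋₊ ≤ n := by
    have h1 : ⌊x * D⌋₊ < n + 1 := by
      rw [Nat.floor_lt (by positivity)]
      exact_mod_cast hxn
    omega
  set N := ⌊x * D⌋₊ with hNdef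
  unfold stepW path
  rw [Fintype.sum_prod_type_right]
  refine Finset.sum_congr rfl fun α _ => ?_
  have hs : Real.sqrt D ≠ 0 := (Real.sqrt_pos.2 hD0).ne'
  have e1 : ∀ k : Fin n, (if (((k : ℕ) : ℝ) + 1) / D ≤ x then
      (incr b D n (k, α) / Real.sqrt D) • A α else 0) =
      (if (k : ℕ) + 1 ≤ N then (fun m : ℕ => b α ((m : ℝ≥0) / D)) ((k : ℕ) + 1)
        - (fun m : ℕ => b α ((m : ℝ≥0) / D)) k else 0) • A α := by
    intro k
    have hc : (((k : ℕ) : ℝ) + 1) / D ≤ x ↔ (k : ℕ) + 1 ≤ N := by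
      rw [hNdef, Nat.le_floor_iff (by positivity), div_le_iff₀ hD0]
      push_cast
      rfl
    by_cases h : (k : ℕ) + 1 ≤ N
    · rw [if_pos h, if_pos (hc.2 h)]
      congr 1
      simp only [incr]
      rw [mul_div_cancel_left₀ _ hs]
      push_cast
      rfl
    · rw [if_neg h, if_neg (fun h1 => h (hc.1 h1)), zero_smul]
  rw [Finset.sum_congr rfl fun k _ => e1 k, ← Finset.sum_smul,
    telescope (fun m : ℕ => b α ((m : ℝ≥0) / D)) hN]
  congr 1
  have e2 : ((N : ℝ) / D).toNNReal = (N : ℝ≥0) / D := by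
    rw [Real.toNNReal_div (by positivity), Real.toNNReal_natCast, Real.toNNReal_natCast]
  rw [e2]
  simp [h0 α]

lemma step_meas (D n : ℕ) (ξ : Fin n × ι → ℝ) : StronglyMeasurable (stepW A D n ξ) := by
  have : stepW A D n ξ = ∑ p : Fin n × ι, fun x : ℝ =>
      if ((p.1 : ℕ) + 1 : ℝ) / D ≤ x then (ξ p / Real.sqrt D) • A p.2 else 0 := by
    funext x
    rw [Finset.sum_apply]
    rfl
  rw [this]
  apply Finset.stronglyMeasurable_sum
  intro p _
  exact StronglyMeasurable.ite measurableSet_Ici stronglyMeasurable_const stronglyMeasurable_const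

lemma floor_div_tendsto {x : ℝ} (hx : 0 ≤ x) :
    Tendsto (fun D : ℕ => (⌊x * ((D + 1 : ℕ) : ℝ)⌋₊ : ℝ) / ((D + 1 : ℕ) : ℝ)) atTop (𝓝 x) := by
  have h1 : Tendsto (fun D : ℕ => (1 : ℝ) / ((D : ℝ) + 1)) atTop (𝓝 0) :=
    tendsto_one_div_add_atTop_nhds_zero_nat
  have h2 : Tendsto (fun D : ℕ => x - (1 : ℝ) / ((D : ℝ) + 1)) atTop (𝓝 x) := by
    have := h1.const_sub x
    rwa [sub_zero] at this
  refine tendsto_of_tendsto_of_tendsto_of_le_of_le h2 tendsto_const_nhds ?_ ?_
  · intro D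
    have hD : (0 : ℝ) < ((D + 1 : ℕ) : ℝ) := by positivity
    have h3 := Nat.sub_one_lt_floor (x * ((D + 1 : ℕ) : ℝ))
    have h4 : (x * ((D + 1 : ℕ) : ℝ) - 1) / ((D + 1 : ℕ) : ℝ) ≤
        (⌊x * ((D + 1 : ℕ) : ℝ)⌋₊ : ℝ) / ((D + 1 : ℕ) : ℝ) := by gcongr
    have h5 : x - (1 : ℝ) / ((D : ℝ) + 1) = (x * ((D + 1 : ℕ) : ℝ) - 1) / ((D + 1 : ℕ) : ℝ) := by
      push_cast
      field_simp
    simp only
    rw [h5]
    exact h4
  · intro D
    have hD : (0 : ℝ) < ((D + 1 : ℕ) : ℝ) := by positivity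
    simp only
    rw [div_le_iff₀ hD]
    exact Nat.floor_le (by positivity)

lemma norm_inner_le (B : ℝ) (T : E →L[ℝ] E) (hT : ‖T‖ ≤ B) (u v : E) :
    ‖(inner ℝ u (T v) : ℝ)‖ ≤ ‖u‖ * B * ‖v‖ := by
  calc ‖(inner ℝ u (T v) : ℝ)‖ ≤ ‖u‖ * ‖T v‖ := norm_inner_le_norm _ _
    _ ≤ ‖u‖ * (‖T‖ * ‖v‖) := by gcongr; exact T.le_opNorm v
    _ ≤ ‖u‖ * (B * ‖v‖) := by gcongr
    _ = _ := by ring

lemma conv (hA : ∀ α, Sym (A α)) (hb : ∀ α, Continuous (b α)) (h0 : ∀ α, b α 0 = 0)
    (κ : ℝ) (S : E →L[ℝ] E) (L : ℕ) (f g : ℝ → E) (hf : f ∈ tstL E L) (hg : g ∈ tstL E L) :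
    Tendsto (fun D : ℕ => bform κ S (stepW A (D + 1) (L * (D + 1)) (incr b (D + 1) (L * (D + 1))))
      f g) atTop (𝓝 (bform κ S (path A b) f g)) := by
  obtain ⟨⟨hf1, hf2⟩, hf3⟩ := hf
  obtain ⟨⟨hg1, hg2⟩, hg3⟩ := hg
  unfold bform
  apply Tendsto.const_sub
  obtain ⟨B, hB⟩ := (path_good hA hb h0).bdd L
  have hB0 : 0 ≤ B := (norm_nonneg _).trans (hB 0 ⟨le_rfl, Nat.cast_nonneg L⟩)
  have cf := hf1.continuous
  have cg := hg1.continuous
  have cf' : Continuous (deriv f) := hf1.continuous_deriv le_rfl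
  have cg' : Continuous (deriv g) := hg1.continuous_deriv le_rfl
  have key : ∀ (D : ℕ) (x : ℝ), 0 ≤ x → x < L →
      stepW A (D + 1) (L * (D + 1)) (incr b (D + 1) (L * (D + 1))) x =
        path A b (⌊x * ((D + 1 : ℕ) : ℝ)⌋₊ / ((D + 1 : ℕ) : ℝ)) := by
    intro D x hx hxL
    apply step_eq h0 (D + 1) (L * (D + 1)) x (by omega) hx
    push_cast
    have : x * ((D : ℝ) + 1) < L * ((D : ℝ) + 1) := by gcongr
    linarith
  apply tendsto_integral_of_dominated_convergence
    (fun x => ‖deriv f x‖ * B * ‖g x‖ + ‖deriv g x‖ * B * ‖f x‖)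
  · intro D
    have hm := step_meas (A := A) (D + 1) (L * (D + 1)) (incr b (D + 1) (L * (D + 1)))
    have happ : ∀ h : ℝ → E, Continuous h → StronglyMeasurable fun x =>
        stepW A (D + 1) (L * (D + 1)) (incr b (D + 1) (L * (D + 1))) x (h x) := fun h hh =>
      (isBoundedBilinearMap_apply (𝕜 := ℝ) (E := E) (F := E)).continuous.comp_stronglyMeasurable
        (hm.prodMk hh.stronglyMeasurable)
    apply StronglyMeasurable.aestronglyMeasurable
    apply StronglyMeasurable.add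
    · exact cf'.stronglyMeasurable.inner (happ g cg)
    · exact cg'.stronglyMeasurable.inner (happ f cf)
  · apply Integrable.integrableOn
    apply Integrable.add
    · apply Continuous.integrable_of_hasCompactSupport (by fun_prop)
      exact hg2.norm.mul_left (f := fun x => ‖deriv f x‖ * B)
    · apply Continuous.integrable_of_hasCompactSupport (by fun_prop)
      exact hf2.norm.mul_left (f := fun x => ‖deriv g x‖ * B)
  · intro D
    refine (ae_restrict_iff' measurableSet_Ioi).2 (Eventually.of_forall fun x hx => ?_)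
    by_cases hxL : x < L
    · rw [key D x (le_of_lt hx) hxL]
      have hT : ‖path A b (⌊x * ((D + 1 : ℕ) : ℝ)⌋₊ / ((D + 1 : ℕ) : ℝ))‖ ≤ B := by
        apply hB
        have hD : (0 : ℝ) < ((D + 1 : ℕ) : ℝ) := by positivity
        have hx0 : 0 ≤ x := le_of_lt hx
        refine ⟨by positivity, ?_⟩
        refine le_trans ?_ hxL.le
        rw [div_le_iff₀ hD]
        exact Nat.floor_le (by positivity)
      refine (norm_add_le _ _).trans (add_le_add ?_ ?_)
      · exact norm_inner_le B _ hT _ _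
      · exact norm_inner_le B _ hT _ _
    · rw [not_lt] at hxL
      rw [hf3 x hxL, hg3 x hxL]
      simp
  · refine (ae_restrict_iff' measurableSet_Ioi).2 (Eventually.of_forall fun x hx => ?_)
    have hx0 : 0 ≤ x := le_of_lt hx
    by_cases hxL : x < L
    · have h1 : Tendsto (fun D : ℕ =>
          stepW A (D + 1) (L * (D + 1)) (incr b (D + 1) (L * (D + 1))) x) atTop
          (𝓝 (path A b x)) := by
        have h2 := (path_cont (A := A) hb).tendsto x
        have h3 := h2.comp (floor_div_tendsto hx0)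
        refine h3.congr fun D => ?_
        rw [key D x hx0 hxL]
        rfl
      have h4 : ∀ v : E, Tendsto (fun D : ℕ =>
          stepW A (D + 1) (L * (D + 1)) (incr b (D + 1) (L * (D + 1))) x v) atTop
          (𝓝 (path A b x v)) := fun v =>
        ((ContinuousLinearMap.apply ℝ E v).continuous.tendsto _).comp h1
      exact (tendsto_const_nhds.inner (h4 _)).add (tendsto_const_nhds.inner (h4 _))
    · rw [not_lt] at hxL
      rw [hf3 x hxL, hg3 x hxL]
      simp

end

theorem dconv : S_DCONV := by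
  intro E _ _ _ ι _ A κ S b hA hb h0
  exact ⟨path_good hA hb h0, fun D n x hD hx hxn => step_eq h0 D n x hD hx hxn,
    fun L f g hf hg => conv hA hb h0 κ S L f g hf hg⟩

end Pool.Agent.Y51.SA
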