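import Pool.Agent.Y782.SA.FDefs

/-! Hermitian matrices over `ℝ`, `ℂ`, `ℍ` as real operators. -/

set_option autoImplicit false
set_option linter.unusedSectionVars false

open MeasureTheory ProbabilityTheory Set Filter Topology
open scoped NNReal ENNReal Quaternion

namespace Pool.Agent.Y51.SA

open Pool.Agent.Y782.SA

theorem rch_real : IsRCH ℝ where
  inner_right a b c := by
    simp only [RCLike.inner_apply, conj_trivial, Real.norm_eq_abs, sq_abs]
    ring
  inner_left m a b := by
    simp only [RCLike.inner_apply, conj_trivial, star_trivial]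
    ring
  star_fix a _ := by simp

theorem rch_complex : IsRCH ℂ where
  inner_right a b c := by
    simp only [Complex.inner, map_mul, ← Complex.normSq_eq_norm_sq, Complex.normSq_apply,
      Complex.mul_re, Complex.mul_im, Complex.conj_re, Complex.conj_im]
    ring
  inner_left m a b := by
    simp only [Complex.inner, map_mul, Complex.star_def,
      Complex.mul_re, Complex.mul_im, Complex.conj_re, Complex.conj_im]
    ring
  star_fix a ha := by
    rw [Complex.star_def, Complex.conj_eq_iff_im] at ha
    apply Complex.ext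
    · simp [Complex.inner]
    · simp [Complex.inner, ha]

theorem rch_quaternion : IsRCH ℍ[ℝ] where
  inner_right a b c := by
    rw [pow_two, ← Quaternion.normSq_eq_norm_mul_self, Quaternion.normSq_def',
      Quaternion.inner_def, Quaternion.inner_def]
    simp only [Quaternion.re_mul, Quaternion.imI_mul, Quaternion.imJ_mul, Quaternion.imK_mul,
      Quaternion.re_star, Quaternion.imI_star, Quaternion.imJ_star, Quaternion.imK_star]
    ring
  inner_left m a b := by
    rw [Quaternion.inner_def, Quaternion.inner_def, star_mul, star_star]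
    simp only [Quaternion.re_mul, Quaternion.imI_mul, Quaternion.imJ_mul, Quaternion.imK_mul,
      Quaternion.re_star, Quaternion.imI_star, Quaternion.imJ_star, Quaternion.imK_star]
    ring
  star_fix a ha := by
    have h1 := congrArg QuaternionAlgebra.imI ha
    have h2 := congrArg QuaternionAlgebra.imJ ha
    have h3 := congrArg QuaternionAlgebra.imK ha
    rw [Quaternion.inner_def]
    simp only [Quaternion.imI_star, Quaternion.imJ_star, Quaternion.imK_star] at h1 h2 h3
    apply Quaternion.ext
    · simp
    · simp; linarith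
    · simp; linarith
    · simp; linarith

theorem rch : S_RCH := ⟨rch_real, rch_complex, rch_quaternion⟩

section opm

variable {F : Type} [NormedDivisionRing F] [StarRing F] [InnerProductSpace ℝ F]
  [IsScalarTower ℝ F F] [SMulCommClass ℝ F F] [FiniteDimensional ℝ F]

lemma opM_apply {r : ℕ} (M : Matrix (Fin r) (Fin r) F) (v : VF F r) (i : Fin r) :
    opM M v i = ∑ j, M i j * v j := rfl

lemma rmul_apply {r : ℕ} (v : VF F r) (c : F) (i : Fin r) : rmul v c i = v i * c := rfl

lemma star_smul' (h : IsRCH F) (r : ℝ) (m : F) : star (r • m) = r • star m := by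
  have key : ∀ x a : F, inner ℝ a (star x) = inner ℝ (x * a) 1 := by
    intro x a
    have := h.inner_left x a 1
    rw [mul_one] at this
    exact this.symm
  apply ext_inner_left ℝ
  intro a
  rw [key, smul_mul_assoc, real_inner_smul_left, real_inner_smul_right, key]

lemma sym_opM (h : IsRCH F) {r : ℕ} (M : Matrix (Fin r) (Fin r) F) (hM : Herm M) :
    Sym (opM M) := by
  intro u v
  rw [PiLp.inner_apply, PiLp.inner_apply]
  simp only [opM_apply, sum_inner, inner_sum]
  rw [Finset.sum_comm]
  refine Finset.sum_congr rfl fun j _ => Finset.sum_congr rfl fun i _ => ?_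
  rw [h.inner_left, hM i j]

lemma opM_rmul {r : ℕ} (M : Matrix (Fin r) (Fin r) F) (v : VF F r) (c : F) :
    opM M (rmul v c) = rmul (opM M v) c := by
  ext i
  rw [opM_apply, rmul_apply, opM_apply, Finset.sum_mul]
  refine Finset.sum_congr rfl fun j _ => ?_
  rw [rmul_apply, mul_assoc]

lemma inner_rmul (h : IsRCH F) {r : ℕ} (v w : VF F r) (c : F) :
    inner ℝ (rmul v c) (rmul w c) = ‖c‖ ^ 2 * inner ℝ v w := by
  rw [PiLp.inner_apply, PiLp.inner_apply, Finset.mul_sum]
  refine Finset.sum_congr rfl fun j _ => ?_
  rw [rmul_apply, rmul_apply, h.inner_right]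

lemma herm_basisM (h : IsRCH F) {r β : ℕ} (e : OrthonormalBasis (Fin β) ℝ F) (α : Idx r β) :
    Herm (basisM e α) := by
  intro k l
  rcases α with i | ⟨p, c⟩
  · simp only [basisM, Matrix.of_apply]
    by_cases h1 : k = i ∧ l = i
    · rw [if_pos h1, if_pos ⟨h1.2, h1.1⟩, star_smul' h, star_one]
    · rw [if_neg h1, if_neg (fun h2 => h1 ⟨h2.2, h2.1⟩), star_zero]
  · have hp : p.1.1 ≠ p.1.2 := p.2.ne
    simp only [basisM, Matrix.of_apply]
    by_cases h1 : k = p.1.1 ∧ l = p.1.2
    · have h2 : ¬ (l = p.1.1 ∧ k = p.1.2) := fun h2 => hp (h1.1.symm.trans h2.2)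
      rw [if_neg h2, if_pos ⟨h1.2, h1.1⟩, if_pos h1, star_smul' h]
    · by_cases h2 : k = p.1.2 ∧ l = p.1.1
      · rw [if_pos ⟨h2.2, h2.1⟩, if_neg h1, if_pos h2, star_smul' h, star_star]
      · rw [if_neg (fun h3 => h2 ⟨h3.2, h3.1⟩), if_neg (fun h3 => h1 ⟨h3.2, h3.1⟩), if_neg h1,
          if_neg h2, star_zero]

lemma entry (h : IsRCH F) {r β : ℕ} (e : OrthonormalBasis (Fin β) ℝ F) (hβ : 1 ≤ β)
    (B : Matrix (Fin r) (Fin r) F) (hB : Herm B) (k l : Fin r) :
    ∑ α : Idx r β, coord e B α • basisM e α k l = Real.sqrt 2 • B k l := by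
  have hβ0 : (0 : ℝ) < β := by exact_mod_cast hβ
  have e1 : Real.sqrt (β / 2) * (Real.sqrt 2 * Real.sqrt (2 / β)) = Real.sqrt 2 := by
    have : Real.sqrt (β / 2) * Real.sqrt (2 / β) = 1 := by
      rw [← Real.sqrt_mul (by positivity), div_mul_div_comm, mul_comm (β : ℝ) 2,
        div_self (by positivity), Real.sqrt_one]
    linear_combination Real.sqrt 2 * this
  have e2 : Real.sqrt β * (Real.sqrt 2 * Real.sqrt (1 / β)) = Real.sqrt 2 := by
    have : Real.sqrt β * Real.sqrt (1 / β) = 1 := by
      rw [← Real.sqrt_mul (by positivity), mul_one_div, div_self hβ0.ne', Real.sqrt_one]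
    linear_combination Real.sqrt 2 * this
  rw [Fintype.sum_sum_type, Fintype.sum_prod_type]
  rcases lt_trichotomy k l with hkl | hkl | hkl
  · have s1 : ∑ i : Fin r, coord e B (Sum.inl i : Idx r β) • basisM e (Sum.inl i) k l = 0 := by
      apply Finset.sum_eq_zero
      intro i _
      simp only [basisM, Matrix.of_apply]
      rw [if_neg (fun h1 => hkl.ne (h1.1.trans h1.2.symm)), smul_zero]
    rw [s1, zero_add, Finset.sum_eq_single ⟨(k, l), hkl⟩]
    · simp only [basisM, Matrix.of_apply, coord, and_self, if_true]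
      conv_rhs => rw [← e.sum_repr' (B k l), Finset.smul_sum]
      refine Finset.sum_congr rfl fun c _ => ?_
      rw [smul_smul, smul_smul]
      congr 1
      linear_combination (inner ℝ (e c) (B k l) : ℝ) * e2
    · intro p _ hp
      apply Finset.sum_eq_zero
      intro c _
      simp only [basisM, Matrix.of_apply]
      rw [if_neg, if_neg, smul_zero]
      · rintro ⟨h1, h2⟩
        exact absurd p.2 (not_lt.2 (by rw [← h1, ← h2]; exact hkl.le))
      · rintro ⟨h1, h2⟩
        exact hp (Subtype.ext (Prod.ext h1.symm h2.symm))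
    · intro h1
      exact absurd (Finset.mem_univ _) h1
  · subst hkl
    have s2 : ∑ p : {p : Fin r × Fin r // p.1 < p.2}, ∑ c : Fin β,
        coord e B (Sum.inr (p, c) : Idx r β) • basisM e (Sum.inr (p, c)) k k = 0 := by
      apply Finset.sum_eq_zero
      intro p _
      apply Finset.sum_eq_zero
      intro c _
      simp only [basisM, Matrix.of_apply]
      rw [if_neg, if_neg, smul_zero]
      · rintro ⟨h1, h2⟩
        exact p.2.ne (h2.symm.trans h1)
      · rintro ⟨h1, h2⟩
        exact p.2.ne (h1.symm.trans h2)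
    rw [s2, add_zero, Finset.sum_eq_single k]
    · simp only [basisM, Matrix.of_apply, coord, and_self, if_true]
      have h1 : star (B k k) = B k k := (hB k k).symm
      conv_rhs => rw [h.star_fix _ h1]
      rw [smul_smul, smul_smul]
      congr 1
      linear_combination (inner ℝ 1 (B k k) : ℝ) * e1
    · intro i _ hi
      simp only [basisM, Matrix.of_apply]
      rw [if_neg (fun h1 => hi h1.1.symm), smul_zero]
    · intro h1
      exact absurd (Finset.mem_univ _) h1
  · have s1 : ∑ i : Fin r, coord e B (Sum.inl i : Idx r β) • basisM e (Sum.inl i) k l = 0 := by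
      apply Finset.sum_eq_zero
      intro i _
      simp only [basisM, Matrix.of_apply]
      rw [if_neg (fun h1 => hkl.ne (h1.2.trans h1.1.symm)), smul_zero]
    rw [s1, zero_add, Finset.sum_eq_single ⟨(l, k), hkl⟩]
    · have hne : ¬ (k = l ∧ l = k) := fun h1 => hkl.ne h1.2
      simp only [basisM, Matrix.of_apply, coord, and_self, if_true]
      rw [hB l k]
      have hsum : star (B l k) = ∑ c, inner ℝ (e c) (B l k) • star (e c) := by
        conv_lhs => rw [← e.sum_repr' (B l k), star_sum]
        exact Finset.sum_congr rfl fun c _ => star_smul' h _ _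
      rw [hsum, Finset.smul_sum]
      refine Finset.sum_congr rfl fun c _ => ?_
      rw [if_neg hne, smul_smul, smul_smul]
      congr 1
      linear_combination (inner ℝ (e c) (B l k) : ℝ) * e2
    · intro p _ hp
      apply Finset.sum_eq_zero
      intro c _
      simp only [basisM, Matrix.of_apply]
      rw [if_neg, if_neg, smul_zero]
      · rintro ⟨h1, h2⟩
        exact hp (Subtype.ext (Prod.ext h2.symm h1.symm))
      · rintro ⟨h1, h2⟩
        exact absurd p.2 (not_lt.2 (by rw [← h1, ← h2]; exact hkl.le))
    · intro h1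
      exact absurd (Finset.mem_univ _) h1

end opm

theorem opm : S_OPM := by
  intro F _ _ _ _ _ _ h r
  refine ⟨sym_opM h, opM_rmul, inner_rmul h, fun β e hβ => ⟨fun α => sym_opM h _ (herm_basisM h e α),
    fun B hB => ?_⟩⟩
  ext v i
  have e1 : (∑ α : Idx r β, coord e B α • opM (basisM e α)) v i =
      ∑ α : Idx r β, coord e B α • ∑ j, basisM e α i j * v j := by
    rw [ContinuousLinearMap.sum_apply]
    simp only [WithLp.ofLp_sum, Finset.sum_apply]
    rfl
  have e2 : (Real.sqrt 2 • opM B) v i = ∑ j, (Real.sqrt 2 • B i j) * v j := by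
    change Real.sqrt 2 • (∑ j, B i j * v j) = _
    rw [Finset.smul_sum]
    exact Finset.sum_congr rfl fun j _ => (smul_mul_assoc _ _ _).symm
  rw [e1, e2]
  simp only [Finset.smul_sum]
  rw [Finset.sum_comm]
  refine Finset.sum_congr rfl fun j _ => ?_
  rw [← entry h e hβ B hB i j, Finset.sum_mul]
  exact Finset.sum_congr rfl fun α _ => (smul_mul_assoc _ _ _)

end Pool.Agent.Y51.SA
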